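import Mathlib
import Pool.Agent.H295R3.Hoheisel

/-!
# MP_4011c3_nt: both assertions for all `m ≥ C n ^ (1 - δ)`

For `q` fixed the primes `p` with `⌊(n - p) / m⌋ = q` are the primes of the interval `(n - (q + 1) m, n - q m]`, and
`q = 2` is good in both questions (`p_2 - 2 + 1 = 2` and `2 ^ 2 - 2 = 2` are primes).  With primes in short intervals
(Hoheisel's theorem, proved in the library) this settles Q1 and Q2 for all `n` and all `m ≥ C n ^ (1 - δ)`, hence for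
each `n` for all but `O(n ^ (1 - δ))` of the admissible `m`, with the expected order of magnitude for the number of
the primes `p`.
-/

set_option autoImplicit false

namespace Pool.Agent.Results.MP_4011c3_nt.AllLargeM

open Finset

/-- the pair `(m, n)` is admissible -/
def Admissible (m n : ℕ) : Prop :=
  1 ≤ m ∧ 2 * m + 1 < n ∧ ((m = 1 ∧ Even n) ∨ (m = 3 ∧ n % 6 ≠ 1) ∨ m = 2 ∨ 4 ≤ m)

/-- what Q1 asserts of the pair `(m, n)` (`Nat.nth Nat.Prime (q - 1)` is the `q`-th prime) -/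
def Holds1 (m n : ℕ) : Prop :=
  ∃ p : ℕ, p.Prime ∧ p < n ∧ ((n - p) / m).Prime ∧
    (Nat.nth Nat.Prime ((n - p) / m - 1) - (n - p) / m + 1).Prime

/-- what Q2 asserts of the pair `(m, n)` -/
def Holds2 (m n : ℕ) : Prop :=
  ∃ p : ℕ, p.Prime ∧ p < n ∧ ((n - p) / m).Prime ∧ (((n - p) / m) ^ 2 - 2).Prime

lemma core : ∃ δ C c : ℝ, 0 < δ ∧ δ < 1 ∧ 1 ≤ C ∧ 0 < c ∧
    ∀ m n T : ℕ, m ≤ T → T ≤ n → C * (n : ℝ) ^ (1 - δ) ≤ m →
      c * m / Real.log n ≤ (((Ioc (T - m) T).filter Nat.Prime).card : ℝ) := by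
  obtain ⟨δ, η, hδ, hδ1, hη, X₀, hX₀, H⟩ := Pool.Agent.H295R3.D.hoheisel
  set C : ℝ := 2 * X₀ + (3 : ℝ) ^ (1 / δ) + 3 with hC
  have h3 : (0 : ℝ) < (3 : ℝ) ^ (1 / δ) := by positivity
  have hX0' : (0 : ℝ) ≤ X₀ := Nat.cast_nonneg _
  have hC1 : 1 ≤ C := by rw [hC]; linarith
  refine ⟨δ, C, η / 3, hδ, hδ1, hC1, by positivity, ?_⟩
  intro m n T hmT hTn hm
  rcases Nat.eq_zero_or_pos m with hm0 | hm0
  · subst hm0; simp
  have hn1 : 1 ≤ n := by omega
  have hn1' : (1 : ℝ) ≤ n := by exact_mod_cast hn1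
  have hpow1 : (1 : ℝ) ≤ (n : ℝ) ^ (1 - δ) := Real.one_le_rpow hn1' (by linarith)
  have hCm : C ≤ m := by nlinarith
  have hmTr : (m : ℝ) ≤ T := by exact_mod_cast hmT
  have hTnr : (T : ℝ) ≤ n := by exact_mod_cast hTn
  have hm3 : 3 ≤ m := by
    have : (3 : ℝ) ≤ m := by rw [hC] at hCm; linarith
    exact_mod_cast this
  have hT2X : 2 * X₀ ≤ T := by
    have : (2 * X₀ : ℝ) ≤ T := by rw [hC] at hCm; linarith
    exact_mod_cast this
  set Y : ℕ := min m (T / 2) with hY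
  set X : ℕ := T - Y with hX
  have hY1 : Y ≤ m := min_le_left _ _
  have hY2 : Y ≤ T / 2 := min_le_right _ _
  have hXY : X + Y = T := by omega
  have hXX : X₀ ≤ X := by omega
  have hYX : Y ≤ X := by omega
  have hXT : X ≤ T := by omega
  have hXn : (X : ℝ) ≤ n := by exact_mod_cast hXT.trans hTn
  have hX2 : (2 : ℝ) ≤ X := by exact_mod_cast hX₀.trans hXX
  have hYm : m ≤ 3 * Y := by
    have : Y = m ∨ Y = T / 2 := by
      rcases le_total m (T / 2) with h | h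
      · left; exact min_eq_left h
      · right; exact min_eq_right h
    rcases this with h | h <;> omega
  have hYm' : (m : ℝ) ≤ 3 * Y := by exact_mod_cast hYm
  have hpow : (X : ℝ) ^ (1 - δ) ≤ Y := by
    rcases le_total m (T / 2) with h | h
    · have hYeq : Y = m := min_eq_left h
      rw [hYeq]
      calc (X : ℝ) ^ (1 - δ) ≤ (n : ℝ) ^ (1 - δ) :=
            Real.rpow_le_rpow (by positivity) hXn (by linarith)
        _ ≤ C * (n : ℝ) ^ (1 - δ) := by nlinarith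
        _ ≤ m := hm
    · have hYeq : Y = T / 2 := min_eq_right h
      have hTpos : (0 : ℝ) < T := by linarith
      have hT3 : (3 : ℝ) ^ (1 / δ) ≤ T := by rw [hC] at hCm; linarith
      have hTd : (3 : ℝ) ≤ (T : ℝ) ^ δ := by
        calc (3 : ℝ) = ((3 : ℝ) ^ (1 / δ)) ^ δ := by
              rw [← Real.rpow_mul (by norm_num), one_div_mul_cancel hδ.ne', Real.rpow_one]
          _ ≤ (T : ℝ) ^ δ := Real.rpow_le_rpow h3.le hT3 hδ.le
      have hTT : (T : ℝ) ^ (1 - δ) * (T : ℝ) ^ δ = T := by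
        rw [← Real.rpow_add hTpos]; simp
      have hTq : 0 ≤ (T : ℝ) ^ (1 - δ) := by positivity
      have h1 : (T : ℝ) ^ (1 - δ) ≤ T / 3 := by
        rw [le_div_iff₀ (by norm_num)]
        nlinarith
      have h2 : T ≤ 3 * Y := by omega
      have h2' : (T : ℝ) ≤ 3 * Y := by exact_mod_cast h2
      calc (X : ℝ) ^ (1 - δ) ≤ (T : ℝ) ^ (1 - δ) :=
            Real.rpow_le_rpow (by positivity) (by exact_mod_cast hXT) (by linarith)
        _ ≤ T / 3 := h1
        _ ≤ Y := by linarith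
  have key := H X Y hXX hpow hYX
  have hsub : (Ioc X (X + Y)).filter Nat.Prime ⊆ (Ioc (T - m) T).filter Nat.Prime := by
    intro p hp
    simp only [mem_filter, mem_Ioc] at hp ⊢
    have hTmX : T - m ≤ X := by omega
    exact ⟨⟨lt_of_le_of_lt hTmX hp.1.1, hp.1.2.trans hXY.le⟩, hp.2⟩
  have hcard : (((Ioc X (X + Y)).filter Nat.Prime).card : ℝ) ≤
      (((Ioc (T - m) T).filter Nat.Prime).card : ℝ) := by
    exact_mod_cast card_le_card hsub
  have hlogX : 0 < Real.log X := Real.log_pos (by linarith)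
  have hlogXn : Real.log X ≤ Real.log n := Real.log_le_log (by linarith) hXn
  have hlogn : 0 < Real.log n := lt_of_lt_of_le hlogX hlogXn
  calc η / 3 * m / Real.log n ≤ η * Y / Real.log n := by
        apply div_le_div_of_nonneg_right _ hlogn.le
        nlinarith
    _ ≤ η * Y / Real.log X := by
        apply div_le_div_of_nonneg_left (by positivity) hlogX hlogXn
    _ ≤ _ := key.trans hcard

/-- `p_2 = 3` -/
lemma nth_one : Nat.nth Nat.Prime 1 = 3 := by
  have h : Nat.count Nat.Prime 3 = 1 := by decide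
  rw [← h]
  exact Nat.nth_count (by norm_num)

/-- There are `0 < δ < 1`, `C` and `c > 0` such that for all `n` and all `m ≥ C n ^ (1 - δ)`:
(1) for every `q ≥ 1` with `q m + 1 < n` some prime `p < n` has `⌊(n - p) / m⌋ = q`;
(2) if `(q + 1) m ≤ n`, there are at least `c m / log n` such primes `p`;
(3) both assertions of the problem hold for the pair `(m, n)` if `n > 2 m + 1`.
(4) For each `n` at most `C n ^ (1 - δ)` admissible pairs `(m, n)` violate Q1 or Q2. -/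
theorem result : ∃ δ C c : ℝ, 0 < δ ∧ δ < 1 ∧ 1 ≤ C ∧ 0 < c ∧
    (∀ m n q : ℕ, 1 ≤ q → q * m + 1 < n → C * (n : ℝ) ^ (1 - δ) ≤ m →
      ∃ p : ℕ, p.Prime ∧ p < n ∧ (n - p) / m = q) ∧
    (∀ m n q : ℕ, 1 ≤ q → (q + 1) * m ≤ n → C * (n : ℝ) ^ (1 - δ) ≤ m →
      c * m / Real.log n ≤ (((range n).filter fun p => p.Prime ∧ (n - p) / m = q).card : ℝ)) ∧
    (∀ m n : ℕ, 2 * m + 1 < n → C * (n : ℝ) ^ (1 - δ) ≤ m → Holds1 m n ∧ Holds2 m n) ∧
    (∀ n : ℕ, (({m : ℕ | Admissible m n ∧ ¬ (Holds1 m n ∧ Holds2 m n)}.ncard : ℕ) : ℝ) ≤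
      C * (n : ℝ) ^ (1 - δ)) := by
  obtain ⟨δ, C, c, hδ, hδ1, hC1, hc, H⟩ := core
  have mpos : ∀ m n : ℕ, 1 ≤ n → C * (n : ℝ) ^ (1 - δ) ≤ m → 1 ≤ m := by
    intro m n hn hm
    have hn1' : (1 : ℝ) ≤ n := by exact_mod_cast hn
    have hpow1 : (1 : ℝ) ≤ (n : ℝ) ^ (1 - δ) := Real.one_le_rpow hn1' (by linarith)
    have : (1 : ℝ) ≤ m := by nlinarith
    exact_mod_cast this
  have h2 : ∀ m n q : ℕ, 1 ≤ q → (q + 1) * m ≤ n → C * (n : ℝ) ^ (1 - δ) ≤ m →
      c * m / Real.log n ≤ (((range n).filter fun p => p.Prime ∧ (n - p) / m = q).card : ℝ) := by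
    intro m n q hq hqm hm
    rcases Nat.eq_zero_or_pos m with hm0 | hm0
    · subst hm0; simp
    have e1 : (q + 1) * m = q * m + m := by ring
    have e2 : 1 ≤ q * m := Nat.mul_pos hq hm0
    have key := H m n (n - q * m) (by omega) (by omega) hm
    refine key.trans ?_
    have : ((Ioc (n - q * m - m) (n - q * m)).filter Nat.Prime) ⊆
        (range n).filter fun p => p.Prime ∧ (n - p) / m = q := by
      intro p hp
      simp only [mem_filter, mem_Ioc, mem_range] at hp ⊢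
      refine ⟨by omega, hp.2, ?_⟩
      apply Nat.div_eq_of_lt_le
      · omega
      · rw [e1]; omega
    exact_mod_cast card_le_card this
  have h1 : ∀ m n q : ℕ, 1 ≤ q → q * m + 1 < n → C * (n : ℝ) ^ (1 - δ) ≤ m →
      ∃ p : ℕ, p.Prime ∧ p < n ∧ (n - p) / m = q := by
    intro m n q hq hqm hm
    have hm1 : 1 ≤ m := mpos m n (by omega) hm
    have e1 : (q + 1) * m = q * m + m := by ring
    have e2 : 1 ≤ q * m := Nat.mul_pos hq hm1
    rcases Nat.lt_or_ge n ((q + 1) * m) with h | h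
    · refine ⟨2, Nat.prime_two, by omega, ?_⟩
      apply Nat.div_eq_of_lt_le
      · omega
      · rw [e1] at h ⊢; omega
    · have hlog : 0 < Real.log n := Real.log_pos (by
        have : 1 < n := by omega
        exact_mod_cast this)
      have hm1' : (0 : ℝ) < m := by exact_mod_cast hm1
      have hpos : 0 < (((range n).filter fun p => p.Prime ∧ (n - p) / m = q).card : ℝ) :=
        lt_of_lt_of_le (by positivity) (h2 m n q hq h hm)
      have hpos' : 0 < ((range n).filter fun p => p.Prime ∧ (n - p) / m = q).card := by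
        exact_mod_cast hpos
      obtain ⟨p, hp⟩ := card_pos.mp hpos'
      simp only [mem_filter, mem_range] at hp
      exact ⟨p, hp.2.1, hp.1, hp.2.2⟩
  have h3 : ∀ m n : ℕ, 2 * m + 1 < n → C * (n : ℝ) ^ (1 - δ) ≤ m → Holds1 m n ∧ Holds2 m n := by
    intro m n hmn hm
    obtain ⟨p, hp, hpn, hq⟩ := h1 m n 2 (by norm_num) hmn hm
    refine ⟨⟨p, hp, hpn, ?_, ?_⟩, ⟨p, hp, hpn, ?_, ?_⟩⟩
    · rw [hq]; exact Nat.prime_two
    · rw [hq, show 2 - 1 = 1 from rfl, nth_one]; norm_num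
    · rw [hq]; exact Nat.prime_two
    · rw [hq]; norm_num
  refine ⟨δ, C, c, hδ, hδ1, hC1, hc, h1, h2, h3, ?_⟩
  intro n
  have hnn : 0 ≤ C * (n : ℝ) ^ (1 - δ) := by positivity
  have hsub : {m : ℕ | Admissible m n ∧ ¬ (Holds1 m n ∧ Holds2 m n)} ⊆
      ((Icc 1 ⌊C * (n : ℝ) ^ (1 - δ)⌋₊ : Finset ℕ) : Set ℕ) := by
    intro m hm
    obtain ⟨⟨hm1, hm2, -⟩, hno⟩ := hm
    have hlt : ¬ C * (n : ℝ) ^ (1 - δ) ≤ m := fun hle => hno (h3 m n hm2 hle)
    simp only [coe_Icc, Set.mem_Icc]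
    exact ⟨hm1, Nat.le_floor (not_le.mp hlt).le⟩
  have hle := Set.ncard_le_ncard hsub (Finset.finite_toSet _)
  rw [Set.ncard_coe_finset, Nat.card_Icc] at hle
  have hle' : {m : ℕ | Admissible m n ∧ ¬ (Holds1 m n ∧ Holds2 m n)}.ncard ≤
      ⌊C * (n : ℝ) ^ (1 - δ)⌋₊ := by omega
  calc (({m : ℕ | Admissible m n ∧ ¬ (Holds1 m n ∧ Holds2 m n)}.ncard : ℕ) : ℝ)
      ≤ (⌊C * (n : ℝ) ^ (1 - δ)⌋₊ : ℝ) := by exact_mod_cast hle'
    _ ≤ _ := Nat.floor_le hnn

end Pool.Agent.Results.MP_4011c3_nt.AllLargeM
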