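import Pool.Agent.H442R2.EHI.PntErr

/-!
# The number of the primes `p` for the pairs `(m, n)` with `m ≥ n / (log n) ^ A`

For a prime `p < n` put `q = ⌊(n - p) / m⌋`.
* For `3 m ≤ n ≤ m (log n) ^ A` the number of the primes `p` is asymptotic to `S m / log n`, where `S` is the sum of
  `min (1, n / m - q)` over the admitted quotients `q ≤ n / m`, uniformly in `m` and in the set of admitted quotients.
* For ALL `m ≥ 1` and `2 m + 1 < n ≤ 9 m + 1`, without any constant, both assertions hold.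

The existence of one `p` (with a lower bound of the right order) in the larger range `m ≥ C n ^ (1 - δ)` is
`AllLargeM`, another hand-in for this problem.
-/

set_option autoImplicit false

namespace Pool.Agent.Results.MP_4011c3_nt.CountForLargeM

open Finset Filter

/-- the condition of Q1 on the quotient: `q` and `p_q - q + 1` are primes (`p_q` is the `q`-th prime) -/
def Good1 (q : ℕ) : Prop := q.Prime ∧ (Nat.nth Nat.Prime (q - 1) - q + 1).Prime

/-- the condition of Q2 on the quotient: `q` and `q ^ 2 - 2` are primes -/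
def Good2 (q : ℕ) : Prop := q.Prime ∧ (q ^ 2 - 2).Prime

open Classical in
/-- the number of the primes `p < n` such that the quotient `⌊(n - p) / m⌋` satisfies `P` -/
noncomputable def R (P : ℕ → Prop) (m n : ℕ) : ℕ :=
  ((range n).filter (fun p => p.Prime ∧ P ((n - p) / m))).card

open Classical in
/-- the sum of `min (1, n / m - q)` over the `q` with `1 ≤ q ≤ n / m` and `P q` -/
noncomputable def S (P : ℕ → Prop) (m n : ℕ) : ℝ :=
  ∑ q ∈ (Icc 1 (n / m)).filter P, min 1 ((n : ℝ) / m - q)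

/-- the number of the primes in `(a, b]` -/
def cnt (a b : ℕ) : ℕ := ((Ioc a b).filter Nat.Prime).card

lemma theta_sub (a b : ℕ) (hab : a ≤ b) :
    Chebyshev.theta b - Chebyshev.theta a = ∑ p ∈ (Ioc a b).filter Nat.Prime, Real.log p := by
  have h : (Ioc 0 b).filter Nat.Prime = (Ioc 0 a).filter Nat.Prime ∪ (Ioc a b).filter Nat.Prime := by
    ext p
    simp only [mem_filter, mem_Ioc, mem_union]
    constructor
    · rintro ⟨⟨h1, h2⟩, h3⟩
      by_cases h : p ≤ a
      · exact Or.inl ⟨⟨h1, h⟩, h3⟩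
      · exact Or.inr ⟨⟨by omega, h2⟩, h3⟩
    · rintro (⟨⟨h1, h2⟩, h3⟩ | ⟨⟨h1, h2⟩, h3⟩)
      · exact ⟨⟨h1, by omega⟩, h3⟩
      · exact ⟨⟨by omega, h2⟩, h3⟩
  have hd : Disjoint ((Ioc 0 a).filter Nat.Prime) ((Ioc a b).filter Nat.Prime) := by
    rw [Finset.disjoint_left]
    intro p hp hq
    simp only [mem_filter, mem_Ioc] at hp hq
    omega
  unfold Chebyshev.theta
  rw [Nat.floor_natCast, Nat.floor_natCast, h, Finset.sum_union hd]
  ring

lemma cnt_lower (n a b : ℕ) (hab : a ≤ b) (hb : b ≤ n) (hn : 3 ≤ n) :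
    (Chebyshev.theta b - Chebyshev.theta a) / Real.log n ≤ cnt a b := by
  have hL : 0 < Real.log n := Real.log_pos (by exact_mod_cast (by omega : 1 < n))
  rw [div_le_iff₀ hL, theta_sub a b hab]
  unfold cnt
  rw [← nsmul_eq_mul]
  apply Finset.sum_le_card_nsmul
  intro p hp
  simp only [mem_filter, mem_Ioc] at hp
  exact Real.log_le_log (by exact_mod_cast hp.2.pos) (by exact_mod_cast hp.1.2.trans hb)

lemma cnt_upper (T : ℝ) (hT : 1 < T) (a b : ℕ) (hab : a ≤ b) :
    (cnt a b : ℝ) ≤ T + (Chebyshev.theta b - Chebyshev.theta a) / Real.log T := by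
  have hl : 0 < Real.log T := Real.log_pos hT
  have h1 : cnt a b = (((Ioc a b).filter Nat.Prime).filter (fun p : ℕ => (p : ℝ) ≤ T)).card +
      (((Ioc a b).filter Nat.Prime).filter (fun p : ℕ => ¬ (p : ℝ) ≤ T)).card :=
    (Finset.card_filter_add_card_filter_not _).symm
  have h2 : ((((Ioc a b).filter Nat.Prime).filter (fun p : ℕ => (p : ℝ) ≤ T)).card : ℝ) ≤ T := by
    have h3 : (((Ioc a b).filter Nat.Prime).filter (fun p : ℕ => (p : ℝ) ≤ T)) ⊆ Icc 1 ⌊T⌋₊ := by
      intro p hp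
      simp only [mem_filter, mem_Ioc] at hp
      rw [mem_Icc]
      exact ⟨hp.1.2.pos, Nat.le_floor hp.2⟩
    have h4 := Finset.card_le_card h3
    rw [Nat.card_Icc, Nat.add_sub_cancel] at h4
    calc _ ≤ (⌊T⌋₊ : ℝ) := by exact_mod_cast h4
      _ ≤ T := Nat.floor_le (by linarith)
  have h5 : ((((Ioc a b).filter Nat.Prime).filter (fun p : ℕ => ¬ (p : ℝ) ≤ T)).card : ℝ) ≤
      (Chebyshev.theta b - Chebyshev.theta a) / Real.log T := by
    rw [le_div_iff₀ hl, theta_sub a b hab]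
    calc ((((Ioc a b).filter Nat.Prime).filter (fun p : ℕ => ¬ (p : ℝ) ≤ T)).card : ℝ) * Real.log T
        ≤ ∑ p ∈ ((Ioc a b).filter Nat.Prime).filter (fun p : ℕ => ¬ (p : ℝ) ≤ T), Real.log p := by
          rw [← nsmul_eq_mul]
          apply Finset.card_nsmul_le_sum
          intro p hp
          simp only [mem_filter, mem_Ioc, not_le] at hp
          exact Real.log_le_log (by linarith) hp.2.le
      _ ≤ _ := by
          apply Finset.sum_le_sum_of_subset_of_nonneg (Finset.filter_subset _ _)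
          intro p hp _
          simp only [mem_filter, mem_Ioc] at hp
          exact Real.log_nonneg (by exact_mod_cast hp.2.pos)
  rw [h1]
  push_cast
  linarith

/-- the prime number theorem with error term, uniform for `a ≤ n` -/
lemma theta_unif (A : ℕ) : ∃ C : ℝ, 0 < C ∧ ∃ n₀ : ℕ, ∀ n a : ℕ, n₀ ≤ n → a ≤ n →
    |Chebyshev.theta a - a| ≤ C * (n / Real.log n ^ (A + 1)) := by
  obtain ⟨C, hC, h⟩ := Pool.Agent.H442R2.EHI.PntErrAux.thetaU (A + 1)
  have hlit : ∀ᶠ x : ℝ in atTop, ‖Real.log x ^ (2 * (A + 1))‖ ≤ 1 * ‖x‖ :=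
    (Real.isLittleO_pow_log_id_atTop).bound one_pos
  obtain ⟨x0, hx0⟩ := eventually_atTop.1 hlit
  refine ⟨C * 2 ^ (A + 1) + 1, by positivity, max ⌈x0⌉₊ 16, fun n a hn ha => ?_⟩
  have hn16 : 16 ≤ n := (le_max_right _ _).trans hn
  have hnr : (16 : ℝ) ≤ n := by exact_mod_cast hn16
  have hnx : x0 ≤ (n : ℝ) := (Nat.le_ceil x0).trans (by exact_mod_cast (le_max_left _ _).trans hn)
  have hL : 0 < Real.log n := Real.log_pos (by linarith)
  have hpow : Real.log n ^ (2 * (A + 1)) ≤ n := by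
    have := hx0 n hnx
    rwa [Real.norm_of_nonneg (by positivity), Real.norm_of_nonneg (by positivity), one_mul] at this
  have ha' : (a : ℝ) ≤ n := by exact_mod_cast ha
  have hq0 : (0 : ℝ) ≤ n / Real.log n ^ (A + 1) := by positivity
  by_cases hbig : n ≤ a ^ 2
  · have ha2 : 2 ≤ a := by nlinarith
    have har : (2 : ℝ) ≤ a := by exact_mod_cast ha2
    have h1 := h a ha2
    have hla : Real.log n / 2 ≤ Real.log a := by
      have h2 : Real.log n ≤ Real.log ((a : ℝ) ^ 2) :=
        Real.log_le_log (by linarith) (by exact_mod_cast hbig)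
      rw [Real.log_pow] at h2
      push_cast at h2
      linarith
    have h3 : (a : ℝ) / Real.log a ^ (A + 1) ≤ 2 ^ (A + 1) * (n / Real.log n ^ (A + 1)) := by
      calc (a : ℝ) / Real.log a ^ (A + 1) ≤ n / (Real.log n / 2) ^ (A + 1) := by gcongr
        _ = _ := by rw [div_pow]; field_simp
    calc |Chebyshev.theta a - a| ≤ C * (a / Real.log a ^ (A + 1)) := h1
      _ ≤ C * (2 ^ (A + 1) * (n / Real.log n ^ (A + 1))) := by gcongr
      _ ≤ (C * 2 ^ (A + 1) + 1) * (n / Real.log n ^ (A + 1)) := by nlinarith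
  · push Not at hbig
    have ha0 : (0 : ℝ) ≤ a := Nat.cast_nonneg a
    have h1 : Chebyshev.theta a ≤ 2 * a := by
      have := Chebyshev.theta_le_log4_mul_x ha0
      have h4 : Real.log 4 ≤ 2 := by
        have : Real.log 4 = 2 * Real.log 2 := by
          rw [show (4 : ℝ) = 2 ^ 2 by norm_num, Real.log_pow]; push_cast; ring
        rw [this]
        have := Real.log_two_lt_d9
        linarith
      nlinarith
    have h2 : 0 ≤ Chebyshev.theta a := Chebyshev.theta_nonneg _
    have h3 : |Chebyshev.theta a - a| ≤ a := by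
      rw [abs_le]
      constructor <;> linarith
    have h4 : (a : ℝ) ≤ n / Real.log n ^ (A + 1) := by
      rw [le_div_iff₀ (by positivity)]
      have h5 : (a : ℝ) ^ 2 ≤ n := by exact_mod_cast hbig.le
      have h6 : ((a : ℝ) * Real.log n ^ (A + 1)) ^ 2 ≤ (n : ℝ) ^ 2 := by
        calc ((a : ℝ) * Real.log n ^ (A + 1)) ^ 2 = (a : ℝ) ^ 2 * Real.log n ^ (2 * (A + 1)) := by ring
          _ ≤ (n : ℝ) * (n : ℝ) := mul_le_mul h5 hpow (by positivity) (by positivity)
          _ = (n : ℝ) ^ 2 := by ring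
      exact (sq_le_sq₀ (by positivity) (by positivity)).1 h6
    calc |Chebyshev.theta a - a| ≤ a := h3
      _ ≤ 1 * (n / Real.log n ^ (A + 1)) := by rw [one_mul]; exact h4
      _ ≤ _ := by
        apply mul_le_mul_of_nonneg_right _ hq0
        have : 0 < C * 2 ^ (A + 1) := by positivity
        linarith

/-- primes in the windows `(a, b]` of length at most `m` -/
lemma window (A : ℕ) (ε : ℝ) (hε : 0 < ε) : ∃ n₀ : ℕ, ∀ m n : ℕ, n₀ ≤ n → (n : ℝ) ≤ m * Real.log n ^ A →
    ∀ a b : ℕ, a ≤ b → b ≤ n → b - a ≤ m →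
      |(cnt a b : ℝ) - ((b : ℝ) - a) / Real.log n| ≤ ε * (m / Real.log n) := by
  obtain ⟨C, hC, n1, h1⟩ := theta_unif A
  obtain ⟨δ, hδ0, hδ1, hδε⟩ : ∃ δ : ℝ, 0 < δ ∧ δ ≤ 1 ∧ δ ≤ ε / 4 :=
    ⟨min 1 (ε / 4), by positivity, min_le_left _ _, min_le_right _ _⟩
  have hc : 0 < δ / (1 + δ) / (A + 2) := by positivity
  have e1 : ∀ᶠ x : ℝ in atTop, max (max (4 / ε) (16 * C / ε)) 3 ≤ Real.log x :=
    Real.tendsto_log_atTop.eventually_ge_atTop _
  have e2 : ∀ᶠ x : ℝ in atTop, ‖Real.log (Real.log x)‖ ≤ δ / (1 + δ) / (A + 2) * ‖Real.log x‖ :=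
    Real.tendsto_log_atTop.eventually ((Real.isLittleO_log_id_atTop).bound hc)
  obtain ⟨x0, hx0⟩ := eventually_atTop.1 (e1.and e2)
  refine ⟨max (max n1 ⌈x0⌉₊) 3, fun m n hn hm a b hab hb hlen => ?_⟩
  have hn3 : 3 ≤ n := (le_max_right _ _).trans hn
  have hn1 : n1 ≤ n := ((le_max_left _ _).trans (le_max_left _ _)).trans hn
  have hnx : x0 ≤ (n : ℝ) :=
    (Nat.le_ceil x0).trans (by exact_mod_cast ((le_max_right _ _).trans (le_max_left _ _)).trans hn)
  obtain ⟨f1, f2⟩ := hx0 n hnx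
  obtain ⟨L, hLd⟩ : ∃ L, L = Real.log (n : ℝ) := ⟨_, rfl⟩
  rw [← hLd] at f1 f2 hm ⊢
  have g1 : 4 / ε ≤ L := ((le_max_left _ _).trans (le_max_left _ _)).trans f1
  have g2 : 16 * C / ε ≤ L := ((le_max_right _ _).trans (le_max_left _ _)).trans f1
  have g3 : 3 ≤ L := (le_max_right _ _).trans f1
  have hL0 : 0 < L := by linarith
  rw [div_le_iff₀ hε] at g1 g2
  have hlL : 0 ≤ Real.log L := Real.log_nonneg (by linarith)
  rw [Real.norm_of_nonneg hlL, Real.norm_of_nonneg hL0.le] at f2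
  have hnr : (3 : ℝ) ≤ n := by exact_mod_cast hn3
  -- the error of theta
  have hE : ∀ c : ℕ, c ≤ n → |Chebyshev.theta c - c| ≤ C * (m / L) := by
    intro c hcn
    refine (h1 n c hn1 hcn).trans ?_
    rw [← hLd]
    apply mul_le_mul_of_nonneg_left _ hC.le
    rw [div_le_div_iff₀ (by positivity) hL0, pow_succ]
    nlinarith [pow_pos hL0 A]
  have hEb := abs_le.1 (hE b hb)
  have hEa := abs_le.1 (hE a (hab.trans hb))
  have hm0 : (0 : ℝ) ≤ m := Nat.cast_nonneg m
  have hmL : 0 ≤ (m : ℝ) / L := by positivity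
  have hlen' : (b : ℝ) - a ≤ m := by
    have : b ≤ m + a := by omega
    have : (b : ℝ) ≤ m + a := by exact_mod_cast this
    linarith
  have hab' : (0 : ℝ) ≤ b - a := by
    have : (a : ℝ) ≤ b := by exact_mod_cast hab
    linarith
  -- C (m / L) ≤ (ε / 16) m
  have hCm : C * (m / L) ≤ ε / 16 * m := by
    rw [mul_div_assoc', div_le_iff₀ hL0]
    nlinarith
  have hlow := cnt_lower n a b hab hb hn3
  rw [← hLd] at hlow
  rw [abs_le]
  constructor
  · have h2 : ((b : ℝ) - a - ε * m) / L ≤ (Chebyshev.theta b - Chebyshev.theta a) / L := by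
      apply div_le_div_of_nonneg_right _ hL0.le
      nlinarith
    have h3 : ((b : ℝ) - a - ε * m) / L = ((b : ℝ) - a) / L - ε * (m / L) := by ring
    linarith
  · obtain ⟨T, hTd⟩ : ∃ T, T = (n : ℝ) / L ^ (A + 2) := ⟨_, rfl⟩
    have hT0 : 0 < T := by rw [hTd]; positivity
    have hlogT : Real.log T = L - (A + 2) * Real.log L := by
      rw [hTd, Real.log_div (by positivity) (by positivity), Real.log_pow, ← hLd]
      push_cast
      ring
    have hlT : L / (1 + δ) ≤ Real.log T := by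
      rw [hlogT]
      have h2 : (A + 2) * Real.log L ≤ δ / (1 + δ) * L := by
        calc ((A : ℝ) + 2) * Real.log L ≤ (A + 2) * (δ / (1 + δ) / (A + 2) * L) := by gcongr
          _ = δ / (1 + δ) * L := by field_simp
      have h3 : L / (1 + δ) = L - δ / (1 + δ) * L := by field_simp; ring
      linarith
    have hlT0 : 0 < Real.log T := lt_of_lt_of_le (by positivity) hlT
    have hT1 : 1 < T := by
      by_contra hcon
      push Not at hcon
      have := Real.log_nonpos hT0.le hcon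
      linarith
    have hup := cnt_upper T hT1 a b hab
    have hTm : T ≤ ε / 4 * (m / L) := by
      have h2 : T ≤ m / L ^ 2 := by
        rw [hTd, div_le_div_iff₀ (by positivity) (by positivity)]
        calc (n : ℝ) * L ^ 2 ≤ m * L ^ A * L ^ 2 := by gcongr
          _ = m * L ^ (A + 2) := by ring
      refine h2.trans ?_
      rw [div_le_iff₀ (by positivity)]
      have h3 : ε / 4 * (m / L) * L ^ 2 = ε * L / 4 * m := by field_simp
      rw [h3]
      nlinarith
    have hmono : 0 ≤ Chebyshev.theta b - Chebyshev.theta a := by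
      have := Chebyshev.theta_mono (show (a : ℝ) ≤ b by linarith)
      linarith
    have h4 : (Chebyshev.theta b - Chebyshev.theta a) / Real.log T ≤
        (Chebyshev.theta b - Chebyshev.theta a) / (L / (1 + δ)) :=
      div_le_div_of_nonneg_left hmono (by positivity) hlT
    have h5 : (Chebyshev.theta b - Chebyshev.theta a) / (L / (1 + δ)) =
        (Chebyshev.theta b - Chebyshev.theta a) * (1 + δ) / L := by field_simp
    have h6 : (Chebyshev.theta b - Chebyshev.theta a) * (1 + δ) ≤ ((b : ℝ) - a) + ε / 2 * m := by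
      have h7 : Chebyshev.theta b - Chebyshev.theta a ≤ (b : ℝ) - a + ε / 8 * m := by linarith
      calc (Chebyshev.theta b - Chebyshev.theta a) * (1 + δ) ≤ ((b : ℝ) - a + ε / 8 * m) * (1 + δ) := by
            gcongr
        _ = (b : ℝ) - a + δ * ((b : ℝ) - a) + ε / 8 * m * (1 + δ) := by ring
        _ ≤ (b : ℝ) - a + ε / 4 * m + ε / 8 * m * 2 := by
            have i1 : δ * ((b : ℝ) - a) ≤ ε / 4 * m := mul_le_mul hδε hlen' hab' (by positivity)
            have i2 : ε / 8 * m * (1 + δ) ≤ ε / 8 * m * 2 := by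
              apply mul_le_mul_of_nonneg_left _ (by positivity)
              linarith
            linarith
        _ = _ := by ring
    have h8 : (Chebyshev.theta b - Chebyshev.theta a) * (1 + δ) / L ≤ (((b : ℝ) - a) + ε / 2 * m) / L :=
      div_le_div_of_nonneg_right h6 hL0.le
    have h9 : (((b : ℝ) - a) + ε / 2 * m) / L = ((b : ℝ) - a) / L + ε / 2 * (m / L) := by ring
    have h10 : 0 ≤ ε * (m / L) := by positivity
    linarith

lemma fiber_eq (m n q : ℕ) (hm : 1 ≤ m) (hq : 1 ≤ q) (hqn : q ≤ n / m) (p : ℕ) :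
    (p < n ∧ p.Prime ∧ (n - p) / m = q) ↔ (n - (q + 1) * m < p ∧ p ≤ n - q * m) ∧ p.Prime := by
  have h1 : q * m ≤ n := (Nat.le_div_iff_mul_le hm).1 hqn
  have h2 : (q + 1) * m = q * m + m := by ring
  have h3 : (n - p) / m = q ↔ q * m ≤ n - p ∧ n - p < (q + 1) * m := by
    rw [← Nat.le_div_iff_mul_le hm, ← Nat.div_lt_iff_lt_mul hm]
    omega
  have h4 : 1 ≤ q * m := Nat.mul_pos hq hm
  rw [h3]
  constructor
  · rintro ⟨h5, h6, h7, h8⟩
    have := h6.two_le
    refine ⟨⟨?_, ?_⟩, h6⟩ <;> omega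
  · rintro ⟨⟨h5, h6⟩, h7⟩
    have := h7.two_le
    refine ⟨?_, h7, ?_, ?_⟩ <;> omega

lemma len_eq (m n q : ℕ) (hm : 1 ≤ m) (hqn : q ≤ n / m) :
    ((n - q * m : ℕ) : ℝ) - ((n - (q + 1) * m : ℕ) : ℝ) = min 1 ((n : ℝ) / m - q) * m := by
  have h1 : q * m ≤ n := (Nat.le_div_iff_mul_le hm).1 hqn
  have hm0 : (0 : ℝ) < m := by exact_mod_cast hm
  by_cases h : (q + 1) * m ≤ n
  · have h2 : (1 : ℝ) ≤ (n : ℝ) / m - q := by
      have : ((q : ℝ) + 1) * m ≤ n := by exact_mod_cast h
      have : (q : ℝ) + 1 ≤ n / m := by rwa [le_div_iff₀ hm0]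
      linarith
    rw [min_eq_left h2, Nat.cast_sub h1, Nat.cast_sub h]
    push_cast
    ring
  · push Not at h
    have h2 : (n : ℝ) / m - q ≤ 1 := by
      have : (n : ℝ) ≤ ((q : ℝ) + 1) * m := by exact_mod_cast h.le
      have : (n : ℝ) / m ≤ q + 1 := by rwa [div_le_iff₀ hm0]
      linarith
    rw [min_eq_right h2, Nat.cast_sub h1, Nat.sub_eq_zero_of_le h.le]
    push_cast
    field_simp
    ring

open Classical in
lemma R_eq (P : ℕ → Prop) (hP0 : ¬ P 0) (m n : ℕ) (hm : 1 ≤ m) :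
    R P m n = ∑ q ∈ (Icc 1 (n / m)).filter P, cnt (n - (q + 1) * m) (n - q * m) := by
  unfold R
  rw [Finset.card_eq_sum_card_fiberwise (f := fun p => (n - p) / m) (t := (Icc 1 (n / m)).filter P)]
  · apply Finset.sum_congr rfl
    intro q hq
    rw [mem_filter, mem_Icc] at hq
    unfold cnt
    congr 1
    ext p
    have h := fiber_eq m n q hm hq.1.1 hq.1.2 p
    simp only [mem_filter, mem_range, mem_Ioc]
    rw [← h]
    constructor
    · rintro ⟨⟨h1, h2, h3⟩, h4⟩
      exact ⟨h1, h2, h4⟩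
    · rintro ⟨h1, h2, h3⟩
      exact ⟨⟨h1, h2, h3 ▸ hq.2⟩, h3⟩
  · intro p hp
    simp only [coe_filter, Set.mem_ofPred_eq, mem_range, mem_Icc] at hp ⊢
    refine ⟨⟨?_, Nat.div_le_div_right (Nat.sub_le _ _)⟩, hp.2.2⟩
    by_contra hcon
    have h0 : (n - p) / m = 0 := Nat.lt_one_iff.1 (not_le.1 hcon)
    exact hP0 (h0 ▸ hp.2.2)

open Classical in
lemma S_ge_card (P : ℕ → Prop) (m n : ℕ) (hm : 1 ≤ m) :
    ((((Icc 1 (n / m)).filter P).card : ℕ) : ℝ) ≤ S P m n + 1 := by
  have hm0 : (0 : ℝ) < m := by exact_mod_cast hm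
  have hnn : ∀ q ∈ (Icc 1 (n / m)).filter P, 0 ≤ min 1 ((n : ℝ) / m - q) := by
    intro q hq
    rw [mem_filter, mem_Icc] at hq
    have h1 : q * m ≤ n := (Nat.le_div_iff_mul_le hm).1 hq.1.2
    have h2 : (q : ℝ) ≤ n / m := by rw [le_div_iff₀ hm0]; exact_mod_cast h1
    exact le_min zero_le_one (by linarith)
  have h1 : (((((Icc 1 (n / m)).filter P).erase (n / m)).card : ℕ) : ℝ) ≤ S P m n := by
    calc (((((Icc 1 (n / m)).filter P).erase (n / m)).card : ℕ) : ℝ)
        = ∑ q ∈ ((Icc 1 (n / m)).filter P).erase (n / m), (1 : ℝ) := by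
          rw [Finset.sum_const, nsmul_eq_mul, mul_one]
      _ ≤ ∑ q ∈ ((Icc 1 (n / m)).filter P).erase (n / m), min 1 ((n : ℝ) / m - q) := by
          apply Finset.sum_le_sum
          intro q hq
          rw [mem_erase, mem_filter, mem_Icc] at hq
          have h2 : q + 1 ≤ n / m := by omega
          have h3 : (q + 1) * m ≤ n := (Nat.le_div_iff_mul_le hm).1 h2
          have h4 : (q : ℝ) + 1 ≤ n / m := by rw [le_div_iff₀ hm0]; exact_mod_cast h3
          exact le_min le_rfl (by linarith)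
      _ ≤ S P m n := by
          unfold S
          exact Finset.sum_le_sum_of_subset_of_nonneg (Finset.erase_subset _ _) (fun q hq _ => hnn q hq)
  have h2 : ((Icc 1 (n / m)).filter P).card ≤ (((Icc 1 (n / m)).filter P).erase (n / m)).card + 1 := by
    have := Finset.pred_card_le_card_erase (s := (Icc 1 (n / m)).filter P) (a := n / m)
    omega
  have h3 : ((((Icc 1 (n / m)).filter P).card : ℕ) : ℝ) ≤
      (((((Icc 1 (n / m)).filter P).erase (n / m)).card : ℕ) : ℝ) + 1 := by exact_mod_cast h2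
  linarith

open Classical in
lemma S_ge_one (P : ℕ → Prop) (hP : P 2) (m n : ℕ) (hm : 1 ≤ m) (hn : 3 * m ≤ n) : 1 ≤ S P m n := by
  have hm0 : (0 : ℝ) < m := by exact_mod_cast hm
  have hnn : ∀ q ∈ (Icc 1 (n / m)).filter P, 0 ≤ min 1 ((n : ℝ) / m - q) := by
    intro q hq
    rw [mem_filter, mem_Icc] at hq
    have h1 : q * m ≤ n := (Nat.le_div_iff_mul_le hm).1 hq.1.2
    have h2 : (q : ℝ) ≤ n / m := by rw [le_div_iff₀ hm0]; exact_mod_cast h1
    exact le_min zero_le_one (by linarith)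
  have h3 : 3 ≤ n / m := (Nat.le_div_iff_mul_le hm).2 hn
  have h2 : 2 ∈ (Icc 1 (n / m)).filter P := by
    rw [mem_filter, mem_Icc]
    exact ⟨⟨by norm_num, by omega⟩, hP⟩
  have h4 : (1 : ℝ) ≤ min 1 ((n : ℝ) / m - (2 : ℕ)) := by
    have h5 : (3 : ℝ) ≤ n / m := by rw [le_div_iff₀ hm0]; exact_mod_cast hn
    exact le_min le_rfl (by push_cast; linarith)
  unfold S
  exact h4.trans (Finset.single_le_sum hnn h2)

lemma good1_of (q v : ℕ) (hq : q.Prime) (hv : v.Prime) (hc : Nat.count Nat.Prime v = q - 1)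
    (h : (v - q + 1).Prime) : Good1 q := by
  refine ⟨hq, ?_⟩
  rw [← hc, Nat.nth_count hv]
  exact h

lemma good1_two : Good1 2 := good1_of 2 3 (by norm_num) (by norm_num) (by decide) (by norm_num)
lemma good1_three : Good1 3 := good1_of 3 5 (by norm_num) (by norm_num) (by decide) (by norm_num)
lemma good1_five : Good1 5 := good1_of 5 11 (by norm_num) (by norm_num) (by decide) (by norm_num)
lemma good1_seven : Good1 7 := good1_of 7 17 (by norm_num) (by norm_num) (by decide) (by norm_num)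
lemma good2_two : Good2 2 := ⟨by norm_num, by norm_num⟩
lemma good2_three : Good2 3 := ⟨by norm_num, by norm_num⟩
lemma good2_five : Good2 5 := ⟨by norm_num, by norm_num⟩
lemma good2_seven : Good2 7 := ⟨by norm_num, by norm_num⟩

lemma win_prime (m x : ℕ) (hm : 1 ≤ m) (h2 : 2 ≤ x) (hx : x ≤ 2 * m + 1) :
    ∃ p : ℕ, p.Prime ∧ x < p + m ∧ p ≤ x := by
  rcases Nat.lt_or_ge x (2 * m + 1) with h | h
  · obtain ⟨p, hp, h3, h4⟩ := Nat.exists_prime_lt_and_le_two_mul (x / 2) (by omega)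
    exact ⟨p, hp, by omega, by omega⟩
  · obtain ⟨p, hp, h3, h4⟩ := Nat.exists_prime_lt_and_le_two_mul (m + 1) (by omega)
    have h5 : p ≠ 2 * (m + 1) := by
      rintro rfl
      exact Nat.not_prime_mul (by norm_num) (by omega) hp
    exact ⟨p, hp, by omega, by omega⟩

lemma quot_of (m n q : ℕ) (hm : 1 ≤ m) (h1 : q * m + 2 ≤ n) (h2 : n ≤ (q + 2) * m + 1) (hq : 1 ≤ q) :
    ∃ p : ℕ, p.Prime ∧ p < n ∧ (n - p) / m = q := by
  have e : (q + 2) * m = q * m + 2 * m := by ring
  obtain ⟨p, hp, h3, h4⟩ := win_prime m (n - q * m) hm (by omega) (by omega)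
  have h5 : q ≤ n / m := (Nat.le_div_iff_mul_le hm).2 (by omega)
  have e2 : (q + 1) * m = q * m + m := by ring
  have h6 := (fiber_eq m n q hm hq h5 p).2 ⟨⟨by have := hp.pos; omega, h4⟩, hp⟩
  exact ⟨p, hp, h6.1, h6.2.2⟩

theorem result :
    -- the asymptotic formula, uniform in `m` and in the set `P` of admitted quotients
    (∀ (A : ℕ) (ε : ℝ), 0 < ε → ∃ n₀ : ℕ, ∀ m n : ℕ, n₀ ≤ n → 3 * m ≤ n → (n : ℝ) ≤ m * Real.log n ^ A →
      ∀ P : ℕ → Prop, P 2 → ¬ P 0 →
        1 ≤ S P m n ∧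
        |(R P m n : ℝ) - S P m n * (m / Real.log n)| ≤ ε * (S P m n * (m / Real.log n))) ∧
    -- the sets of Q1 and Q2 are such `P`
    (Good1 2 ∧ ¬ Good1 0 ∧ Good2 2 ∧ ¬ Good2 0) ∧
    -- all `m ≥ 1` and `2 m + 1 < n ≤ 9 m + 1`
    (∀ m n : ℕ, 1 ≤ m → 2 * m + 1 < n → n ≤ 9 * m + 1 →
      (∃ p : ℕ, p.Prime ∧ p < n ∧ Good1 ((n - p) / m)) ∧
      (∃ p : ℕ, p.Prime ∧ p < n ∧ Good2 ((n - p) / m))) := by
  refine ⟨?_, ⟨good1_two, fun h => Nat.not_prime_zero h.1, good2_two, fun h => Nat.not_prime_zero h.1⟩, ?_⟩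
  · intro A ε hε
    obtain ⟨n₀, h0⟩ := window A (ε / 2) (by positivity)
    refine ⟨max n₀ 3, fun m n hn h1 h2 P hP hP0 => ?_⟩
    have hn3 : 3 ≤ n := (le_max_right _ _).trans hn
    have hL : 0 < Real.log n := Real.log_pos (by exact_mod_cast (by omega : 1 < n))
    have hm : 1 ≤ m := by
      by_contra hcon
      have hm0 : m = 0 := by omega
      rw [hm0, Nat.cast_zero, zero_mul] at h2
      have : (3 : ℝ) ≤ n := by exact_mod_cast hn3
      linarith
    have hm0 : (0 : ℝ) < m := by exact_mod_cast hm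
    have hS1 := S_ge_one P hP m n hm h1
    refine ⟨hS1, ?_⟩
    have hcard := S_ge_card P m n hm
    have hX : 0 ≤ (m : ℝ) / Real.log n := by positivity
    classical
    have e1 : (R P m n : ℝ) - S P m n * (m / Real.log n) =
        ∑ q ∈ (Icc 1 (n / m)).filter P, ((cnt (n - (q + 1) * m) (n - q * m) : ℝ) -
          min 1 ((n : ℝ) / m - q) * (m / Real.log n)) := by
      rw [R_eq P hP0 m n hm, Finset.sum_sub_distrib, ← Finset.sum_mul]
      push_cast
      unfold S
      congr!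
    rw [e1]
    calc |∑ q ∈ (Icc 1 (n / m)).filter P, ((cnt (n - (q + 1) * m) (n - q * m) : ℝ) -
          min 1 ((n : ℝ) / m - q) * (m / Real.log n))|
        ≤ ∑ q ∈ (Icc 1 (n / m)).filter P, |(cnt (n - (q + 1) * m) (n - q * m) : ℝ) -
          min 1 ((n : ℝ) / m - q) * (m / Real.log n)| := Finset.abs_sum_le_sum_abs _ _
      _ ≤ ∑ q ∈ (Icc 1 (n / m)).filter P, (ε / 2 * (m / Real.log n)) := by
          apply Finset.sum_le_sum
          intro q hq
          rw [mem_filter, mem_Icc] at hq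
          have e2 : (q + 1) * m = q * m + m := by ring
          have h3 := h0 m n ((le_max_left _ _).trans hn) h2 (n - (q + 1) * m) (n - q * m) (by omega)
            (by omega) (by omega)
          rw [len_eq m n q hm hq.1.2] at h3
          have e3 : min 1 ((n : ℝ) / m - q) * (m / Real.log n) =
              min 1 ((n : ℝ) / m - q) * m / Real.log n := by ring
          rw [e3]
          exact h3
      _ = (((Icc 1 (n / m)).filter P).card : ℝ) * (ε / 2 * (m / Real.log n)) := by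
          rw [Finset.sum_const, nsmul_eq_mul]
      _ ≤ (2 * S P m n) * (ε / 2 * (m / Real.log n)) := by
          apply mul_le_mul_of_nonneg_right _ (by positivity)
          convert hcard.trans (by linarith : S P m n + 1 ≤ 2 * S P m n) using 3
      _ = ε * (S P m n * (m / Real.log n)) := by ring
  · intro m n hm h1 h2
    have key : ∃ q, (Good1 q ∧ Good2 q) ∧ ∃ p : ℕ, p.Prime ∧ p < n ∧ (n - p) / m = q := by
      rcases Nat.lt_or_ge n (4 * m + 2) with h3 | h3
      · exact ⟨2, ⟨good1_two, good2_two⟩, quot_of m n 2 hm (by omega) (by omega) (by norm_num)⟩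
      rcases Nat.lt_or_ge n (5 * m + 2) with h4 | h4
      · exact ⟨3, ⟨good1_three, good2_three⟩, quot_of m n 3 hm (by omega) (by omega) (by norm_num)⟩
      rcases Nat.lt_or_ge n (7 * m + 2) with h5 | h5
      · exact ⟨5, ⟨good1_five, good2_five⟩, quot_of m n 5 hm (by omega) (by omega) (by norm_num)⟩
      · exact ⟨7, ⟨good1_seven, good2_seven⟩, quot_of m n 7 hm (by omega) (by omega) (by norm_num)⟩
    obtain ⟨q, ⟨g1, g2⟩, p, hp, hpn, hq⟩ := key
    exact ⟨⟨p, hp, hpn, hq ▸ g1⟩, ⟨p, hp, hpn, hq ▸ g2⟩⟩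

end Pool.Agent.Results.MP_4011c3_nt.CountForLargeM
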