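import Mathlib
import Pool.Agent.H295R3.Hoheisel
import Pool.Agent.H357R2.SI.Moment

set_option autoImplicit false

namespace Pool.Agent.Results.MP_4011c3_nt.PositiveProportion

open Finset

/-- The assertion of Q1 for the pair `(m, n)`: there is a prime `p < n` such that
`q = ⌊(n - p) / m⌋` and `p_q - q + 1` are prime; `p_q`, the `q`-th prime, is
`Nat.nth Nat.Prime (q - 1)`. -/
def Q1At (m n : ℕ) : Prop :=
  ∃ p : ℕ, p.Prime ∧ p < n ∧ ∃ q : ℕ, q = (n - p) / m ∧ q.Prime ∧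
    (Nat.nth Nat.Prime (q - 1) - q + 1).Prime

/-- The assertion of Q2 for the pair `(m, n)`: there is a prime `p < n` such that
`q = ⌊(n - p) / m⌋` and `q ^ 2 - 2` are prime. -/
def Q2At (m n : ℕ) : Prop :=
  ∃ p : ℕ, p.Prime ∧ p < n ∧ ∃ q : ℕ, q = (n - p) / m ∧ q.Prime ∧ (q ^ 2 - 2).Prime

lemma nthP {k p : ℕ} (hp : p.Prime) (h : Nat.count Nat.Prime p = k) : Nat.nth Nat.Prime k = p := by
  rw [← h]; exact Nat.nth_count hp

lemma good {m n p q : ℕ} (hq : q = 2 ∨ q = 3 ∨ q = 5 ∨ q = 7) (hp : p.Prime) (hpn : p < n)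
    (h : (n - p) / m = q) : Q1At m n ∧ Q2At m n := by
  have h1 : q.Prime ∧ (Nat.nth Nat.Prime (q - 1) - q + 1).Prime ∧ (q ^ 2 - 2).Prime := by
    rcases hq with rfl | rfl | rfl | rfl
    · rw [nthP (k := 2 - 1) (p := 3) (by norm_num) (by decide)]; norm_num
    · rw [nthP (k := 3 - 1) (p := 5) (by norm_num) (by decide)]; norm_num
    · rw [nthP (k := 5 - 1) (p := 11) (by norm_num) (by decide)]; norm_num
    · rw [nthP (k := 7 - 1) (p := 17) (by norm_num) (by decide)]; norm_num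
  exact ⟨⟨p, hp, hpn, q, h.symm, h1.1, h1.2.1⟩, ⟨p, hp, hpn, q, h.symm, h1.1, h1.2.2⟩⟩

lemma divq {m n p q : ℕ} (hm : 1 ≤ m) (h1 : q * m + p ≤ n) (h2 : n < q * m + m + p) :
    (n - p) / m = q := by
  obtain ⟨r, hr⟩ : ∃ r, n - p = q * m + r := ⟨n - p - q * m, by omega⟩
  have h4 : r < m := by omega
  rw [hr, Nat.mul_comm q m, Nat.mul_add_div (by omega), Nat.div_eq_of_lt h4, Nat.add_zero]

open Pool.Agent.H357R2.SI in
/-- second moment of the number of primes in windows of length `T ≤ N` -/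
lemma secondMoment : ∃ C : ℝ, 1 ≤ C ∧ ∃ N₀ : ℕ, 3 ≤ N₀ ∧ ∀ N T : ℕ, N₀ ≤ N → T ≤ N →
    ∑ n ∈ Finset.range N, ((pc n (n + T) : ℝ)) ^ 2 ≤
      C * (T * (N / Real.log N) * (1 + T / Real.log N)) := by
  obtain ⟨C1, hC1, u0, hps⟩ := pair_sieve
  obtain ⟨C2, hC2, hsg⟩ := sum_sg_sq
  obtain ⟨X₀, hX₀, hpnt⟩ := pnt 1 one_pos
  refine ⟨4 * C1 * C2, by nlinarith [mul_le_mul hC1 hC2 (by norm_num) (by linarith)],
    max X₀ u0, by omega, ?_⟩
  intro N T hN hTNn
  have hNX : X₀ ≤ N := (le_max_left _ _).trans hN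
  have hNu : u0 ≤ N := (le_max_right _ _).trans hN
  have hN3 : (3 : ℝ) ≤ N := by exact_mod_cast hX₀.trans hNX
  have hL : 0 < Real.log N := Real.log_pos (by linarith)
  have hTN' : (T : ℝ) ≤ N := by exact_mod_cast hTNn
  have hT0 : (0 : ℝ) ≤ T := Nat.cast_nonneg T
  have h1 : (∑ n ∈ Finset.range N, ((pc n (n + T) : ℝ)) ^ 2) ≤
      T * (((PZ (N + T)).card : ℝ) + 2 * ∑ h ∈ Finset.Icc 1 T,
        (((Finset.Ioc 0 (N + T)).filter (fun n => n.Prime ∧ (n + h).Prime)).card : ℝ)) := by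
    exact_mod_cast second_moment N T
  have hlogZ : Real.log N ≤ Real.log ((N + T : ℕ) : ℝ) := by
    apply Real.log_le_log (by linarith)
    push_cast; linarith
  have hZ2 : (((N + T : ℕ)) : ℝ) ≤ 2 * N := by push_cast; linarith
  have h2 : ((PZ (N + T)).card : ℝ) ≤ 4 * N / Real.log N := by
    have h3 : (PZ (N + T)).card = Nat.primeCounting (N + T) := pc_zero (N + T)
    rw [h3]
    refine (hpnt (N + T) (by omega)).2.trans ?_
    apply div_le_div₀ (by positivity) _ hL hlogZ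
    linarith
  have h3 : ∀ h ∈ Finset.Icc 1 T,
      (((Finset.Ioc 0 (N + T)).filter (fun n => n.Prime ∧ (n + h).Prime)).card : ℝ) ≤
      2 * C1 * N / Real.log N ^ 2 * sg h ^ 2 := by
    intro h hh
    rw [Finset.mem_Icc] at hh
    have h4 := hps h 0 (N + T) (by omega) (by omega)
    rw [zero_add] at h4
    refine h4.trans ?_
    calc C1 * sg h ^ 2 * ((N + T : ℕ) : ℝ) / Real.log ((N + T : ℕ) : ℝ) ^ 2
        ≤ C1 * sg h ^ 2 * (2 * N) / Real.log N ^ 2 := by
          apply div_le_div₀ (by positivity) _ (by positivity)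
          · gcongr
          · gcongr
      _ = 2 * C1 * N / Real.log N ^ 2 * sg h ^ 2 := by ring
  have h4 : ∑ h ∈ Finset.Icc 1 T,
      (((Finset.Ioc 0 (N + T)).filter (fun n => n.Prime ∧ (n + h).Prime)).card : ℝ) ≤
      2 * C1 * N / Real.log N ^ 2 * (C2 * T) := by
    refine (Finset.sum_le_sum h3).trans ?_
    rw [← Finset.mul_sum]
    exact mul_le_mul_of_nonneg_left (hsg T) (by positivity)
  have hC12 : 1 ≤ C1 * C2 := by nlinarith
  calc _ ≤ _ := h1
    _ ≤ T * (4 * N / Real.log N + 2 * (2 * C1 * N / Real.log N ^ 2 * (C2 * T))) := by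
        apply mul_le_mul_of_nonneg_left _ hT0
        linarith
    _ ≤ T * (4 * (C1 * C2) * N / Real.log N + 2 * (2 * C1 * N / Real.log N ^ 2 * (C2 * T))) := by
        apply mul_le_mul_of_nonneg_left _ hT0
        have : 4 * (N : ℝ) / Real.log N ≤ 4 * (C1 * C2) * N / Real.log N := by
          apply div_le_div_of_nonneg_right _ hL.le
          nlinarith
        linarith
    _ = 4 * C1 * C2 * (T * (N / Real.log N) * (1 + T / Real.log N)) := by field_simp; ring

open Pool.Agent.H357R2.SI in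
/-- first moment -/
lemma firstMoment (M m X : ℕ) (hmX : m ≤ X) (hXM : 2 * X ≤ M) :
    m * ((Ioc X (X + X)).filter Nat.Prime).card ≤ ∑ s ∈ range M, pc s (s + m) := by
  have h1 : ∀ s ∈ range M, (∑ p ∈ (Ioc X (X + X)).filter Nat.Prime,
      if s < p ∧ p ≤ s + m then 1 else 0) ≤ pc s (s + m) := by
    intro s _
    rw [← card_filter, pc]
    apply card_le_card
    intro p hp
    rw [mem_filter, mem_filter] at hp
    rw [mem_filter, mem_Ioc]
    exact ⟨hp.2, hp.1.2⟩
  refine le_trans ?_ (sum_le_sum h1)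
  rw [sum_comm, mul_comm, ← smul_eq_mul, ← sum_const]
  apply sum_le_sum
  intro p hp
  rw [mem_filter, mem_Ioc] at hp
  rw [← card_filter]
  have hsub : Ico (p - m) p ⊆ (range M).filter (fun s => s < p ∧ p ≤ s + m) := by
    intro s hs
    rw [mem_Ico] at hs
    rw [mem_filter, mem_range]
    omega
  have := card_le_card hsub
  rw [Nat.card_Ico] at this
  omega

open Pool.Agent.H357R2.SI in
lemma partThree (hH : Pool.Agent.H469R10.HO.Hoheisel) : ∃ c : ℝ, 0 < c ∧ ∃ N₀ : ℕ,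
    ∀ N m : ℕ, N₀ ≤ N → 1 ≤ m → 9 * m ≤ N →
      ∃ S : Finset ℕ, (∀ n ∈ S, n < N ∧ ∃ p : ℕ, p.Prime ∧ p < n ∧ (n - p) / m = 2) ∧
        c * min 1 (m / Real.log N) * N ≤ (S.card : ℝ) := by
  classical
  obtain ⟨δ, η, hδ, hδ1, hη, X₀, hX₀, H⟩ := hH
  obtain ⟨C, hC, N₁, hN₁, H2⟩ := secondMoment
  refine ⟨η ^ 2 / (32 * C), by positivity, max N₁ (3 * X₀ + 12), ?_⟩
  intro N m hN hm hmN
  have hNN : N₁ ≤ N := (le_max_left _ _).trans hN
  have hNX : 3 * X₀ + 12 ≤ N := (le_max_right _ _).trans hN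
  set X : ℕ := N / 3 with hX
  set M : ℕ := N - 3 * m with hM
  have hN3 : (3 : ℝ) ≤ N := by exact_mod_cast hN₁.trans hNN
  have hL : 0 < Real.log N := Real.log_pos (by linarith)
  have hX1 : (1 : ℝ) ≤ X := by exact_mod_cast (by omega : 1 ≤ X)
  -- primes in `(X, 2X]`
  have a1 : η * X / Real.log X ≤ (((Ioc X (X + X)).filter Nat.Prime).card : ℝ) := by
    apply H X X (by omega) _ le_rfl
    calc (X : ℝ) ^ (1 - δ) ≤ (X : ℝ) ^ (1 : ℝ) :=
          Real.rpow_le_rpow_of_exponent_le hX1 (by linarith)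
      _ = X := Real.rpow_one _
  have a2 : η * (N / 4) / Real.log N ≤ (((Ioc X (X + X)).filter Nat.Prime).card : ℝ) := by
    refine le_trans ?_ a1
    have hlX : 0 < Real.log X := Real.log_pos (by exact_mod_cast (by omega : 1 < X))
    have hlXN : Real.log X ≤ Real.log N :=
      Real.log_le_log (by linarith) (by exact_mod_cast (by omega : X ≤ N))
    have h4 : (N : ℝ) / 4 ≤ X := by
      have : N ≤ 4 * X := by omega
      have h' : (N : ℝ) ≤ 4 * X := by exact_mod_cast this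
      linarith
    apply div_le_div₀ (by positivity) _ hlX hlXN
    exact mul_le_mul_of_nonneg_left h4 hη.le
  -- first moment
  have a3 : (m : ℝ) * (η * (N / 4) / Real.log N) ≤
      ∑ s ∈ range M, (pc s (s + m) : ℝ) := by
    have := firstMoment M m X (by omega) (by omega)
    have h' : (m : ℝ) * (((Ioc X (X + X)).filter Nat.Prime).card : ℝ) ≤
        ∑ s ∈ range M, (pc s (s + m) : ℝ) := by exact_mod_cast this
    exact le_trans (mul_le_mul_of_nonneg_left a2 (Nat.cast_nonneg m)) h'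
  -- second moment
  have a4 : ∑ s ∈ range M, ((pc s (s + m) : ℝ)) ^ 2 ≤
      C * (m * (N / Real.log N) * (1 + m / Real.log N)) := by
    refine le_trans ?_ (H2 N m hNN (by omega))
    apply sum_le_sum_of_subset_of_nonneg
    · intro s hs
      rw [mem_range] at hs ⊢
      omega
    · intro s _ _
      positivity
  -- Cauchy-Schwarz
  set S : Finset ℕ := (range M).filter (fun s => pc s (s + m) ≠ 0) with hS
  have a5 : ∑ s ∈ S, (pc s (s + m) : ℝ) = ∑ s ∈ range M, (pc s (s + m) : ℝ) := by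
    rw [hS, sum_filter]
    apply sum_congr rfl
    intro s _
    split_ifs with h
    · rfl
    · rw [not_not] at h
      rw [h, Nat.cast_zero]
  have a6 : ∑ s ∈ S, ((pc s (s + m) : ℝ)) ^ 2 ≤ ∑ s ∈ range M, ((pc s (s + m) : ℝ)) ^ 2 := by
    apply sum_le_sum_of_subset_of_nonneg (filter_subset _ _)
    intro s _ _
    positivity
  have a7 : (∑ s ∈ S, (pc s (s + m) : ℝ)) ^ 2 ≤ S.card * ∑ s ∈ S, ((pc s (s + m) : ℝ)) ^ 2 :=
    sq_sum_le_card_mul_sum_sq
  -- from `s` to `n = s + 3 m`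
  have a8 : (S.image (fun s => s + 3 * m)).card = S.card :=
    card_image_of_injective S (fun a b h => by simpa using h)
  refine ⟨S.image (fun s => s + 3 * m), ?_, ?_⟩
  · intro n hn
    rw [mem_image] at hn
    obtain ⟨s, hs, rfl⟩ := hn
    rw [hS, mem_filter, mem_range] at hs
    have h1 : 0 < pc s (s + m) := Nat.pos_of_ne_zero hs.2
    rw [pc, card_pos] at h1
    obtain ⟨p, hp⟩ := h1
    rw [mem_filter, mem_Ioc] at hp
    exact ⟨by omega, p, hp.2, by omega, divq (by omega) (by omega) (by omega)⟩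
  rw [a8]
  have hm1 : (1 : ℝ) ≤ m := by exact_mod_cast hm
  set L : ℝ := Real.log N with hLdef
  set t : ℝ := m / L with ht
  have ht0 : 0 < t := by positivity
  have hmL : (m : ℝ) = t * L := by rw [ht]; field_simp
  -- `(m η N / (4 L))^2 ≤ |S| C m (N / L) (1 + t)`
  have b1 : ((m : ℝ) * (η * (N / 4) / L)) ^ 2 ≤ S.card * (C * (m * (N / L) * (1 + t))) := by
    calc ((m : ℝ) * (η * (N / 4) / L)) ^ 2 ≤ (∑ s ∈ S, (pc s (s + m) : ℝ)) ^ 2 := by
          rw [a5]
          exact pow_le_pow_left₀ (by positivity) a3 2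
      _ ≤ S.card * ∑ s ∈ S, ((pc s (s + m) : ℝ)) ^ 2 := a7
      _ ≤ S.card * (C * (m * (N / L) * (1 + t))) := by
          apply mul_le_mul_of_nonneg_left (a6.trans a4) (Nat.cast_nonneg _)
  have hN0 : (0 : ℝ) < N := by linarith
  have hK : 0 < (m : ℝ) * (N / L) := by positivity
  have b2 : (m : ℝ) * (N / L) * (η ^ 2 / 16) ≤ S.card * (C * (1 + t)) := by
    have e : ((m : ℝ) * (η * (N / 4) / L)) ^ 2 =
        ((m : ℝ) * (N / L)) * ((m : ℝ) * (N / L) * (η ^ 2 / 16)) := by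
      field_simp; ring
    have e' : (S.card : ℝ) * (C * (m * (N / L) * (1 + t))) =
        ((m : ℝ) * (N / L)) * (S.card * (C * (1 + t))) := by ring
    rw [e, e'] at b1
    exact le_of_mul_le_mul_left b1 hK
  have e3 : (m : ℝ) * (N / L) = t * N := by rw [hmL]; field_simp
  rw [e3] at b2
  have hC0 : 0 < C := by linarith
  have b3 : t * N * (η ^ 2 / 16) / (C * (1 + t)) ≤ S.card := by
    rw [div_le_iff₀ (by positivity)]
    exact b2
  refine le_trans ?_ b3
  rw [le_div_iff₀ (by positivity)]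
  have b4 : min 1 t * (1 + t) ≤ 2 * t := by
    rcases le_total 1 t with h | h
    · rw [min_eq_left h]; linarith
    · rw [min_eq_right h]; nlinarith
  calc η ^ 2 / (32 * C) * min 1 t * N * (C * (1 + t))
      = (η ^ 2 / 32) * N * (min 1 t * (1 + t)) := by field_simp
    _ ≤ (η ^ 2 / 32) * N * (2 * t) := by
        apply mul_le_mul_of_nonneg_left b4 (by positivity)
    _ = t * N * (η ^ 2 / 16) := by ring

/-- There are `c > 0` and `N₀` such that for all `N ≥ N₀` and all `m ≥ 1` with `9 m ≤ N`, the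
assertions of Q1 and Q2 both hold for at least `c min (1, m / log N) N` of the `n < N` with
`n > 2 m + 1`; so for a positive proportion of them, uniformly in `m ≥ log N`. -/
theorem result : ∃ c : ℝ, 0 < c ∧ ∃ N₀ : ℕ, ∀ N m : ℕ, N₀ ≤ N → 1 ≤ m → 9 * m ≤ N →
      c * min 1 (m / Real.log N) * N ≤
        ({n : ℕ | n < N ∧ 2 * m + 1 < n ∧ Q1At m n ∧ Q2At m n}.ncard : ℝ) := by
  obtain ⟨c, hc, N₀, h⟩ := partThree Pool.Agent.H295R3.D.hoheisel
  refine ⟨c, hc, N₀, fun N m hN hm hmN => ?_⟩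
  obtain ⟨S, hS, hSc⟩ := h N m hN hm hmN
  refine hSc.trans ?_
  rw [← Set.ncard_coe_finset]
  have hfin : {n : ℕ | n < N ∧ 2 * m + 1 < n ∧ Q1At m n ∧ Q2At m n}.Finite :=
    (Set.finite_lt_nat N).subset (fun n hn => hn.1)
  have hsub : (S : Set ℕ) ⊆ {n : ℕ | n < N ∧ 2 * m + 1 < n ∧ Q1At m n ∧ Q2At m n} := by
    intro n hn
    obtain ⟨h1, p, hp, hpn, hq⟩ := hS n (mem_coe.1 hn)
    have h2 : 2 * m ≤ n - p := by
      have := Nat.div_mul_le_self (n - p) m
      rw [hq] at this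
      exact this
    have h3 := hp.two_le
    exact ⟨h1, by omega, good (by norm_num) hp hpn hq⟩
  exact_mod_cast Set.ncard_le_ncard hsub hfin

end Pool.Agent.Results.MP_4011c3_nt.PositiveProportion
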